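import Pool.Agent.VMX.StmtsF

/-!
# VMX squad, row NEV: no eigenvector in `C`
-/

set_option autoImplicit false

open Matrix Filter Topology

namespace Pool.Agent.VMX.H75

open Pool.Agent.PFS Pool.Agent.PFJ Pool.Agent.NBT

theorem nev (hAtf : AtfStmt) : NevStmt := by
  intro n C Γ hCC g hg s la a ψ hs ha hA v hv c hvc
  have hP : PCone C := hCC.toPCone
  have haC : a ∉ C := hCC.hul.lamNot a ha
  have h0 : (0 : V n) ∉ C := by
    intro h
    obtain ⟨M, _, hM⟩ := hP.absorb h (-a)
    rw [smul_zero, zero_sub, neg_neg] at hM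
    exact haC hM
  have hv0 : v ≠ 0 := by
    intro h
    rw [h] at hv
    exact h0 hv
  have hvcl : v ∈ closure C := subset_closure hv
  have hmem : s • act g v ∈ C := (hCC.sact_mem_iff hg hs).2 hv
  have hc : 0 < c := by
    by_contra hc
    push Not at hc
    have h1 : (-c) • v ∈ closure C := hP.cl_smul hvcl (by linarith)
    have h2 := hP.add_cl hmem h1
    rw [hvc, ← add_smul, add_neg_cancel, zero_smul] at h2
    exact h0 h2
  obtain ⟨-, hF2, -, -, hF5, -⟩ := hAtf n C hP ⊤ (sA s g) la a ψ hA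
  have heq : sA s g v = c • v := by rw [sA_apply]; exact hvc
  obtain ⟨hle, hlt⟩ := hF5 v Submodule.mem_top hv0 c hc heq
  have hψ : 0 < ψ v := by
    obtain ⟨M, hM, hM1⟩ := hP.absorb hv a
    have h1 := hA.nn (M • v - a) Submodule.mem_top (subset_closure hM1)
    rw [map_sub, map_smul, smul_eq_mul, hA.one] at h1
    by_contra h2
    push Not at h2
    have h3 : M * ψ v ≤ 0 := mul_nonpos_of_nonneg_of_nonpos hM.le h2
    linarith
  rcases hle.eq_or_lt with h | h
  · have h1 := hF2 v Submodule.mem_top (by rw [heq, h])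
    rw [h1] at hv
    exact haC ((hP.smul_iff hψ).1 hv)
  · rw [hlt h] at hψ
    exact lt_irrefl 0 hψ

end Pool.Agent.VMX.H75
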