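import Pool.Agent.VMX.StmtsC

/-!
# VMX squad, row TPV: the fixed vertex is the attracting ray on `V`
-/

set_option autoImplicit false

open Matrix Filter Topology

namespace Pool.Agent.VMX.H75

open Pool.Agent.PFS Pool.Agent.PFJ Pool.Agent.NBT

theorem gap0_exists {k : ℕ} (a : Fin (k + 1) → ℝ) (ha : ∀ i, i ≠ 0 → a i < a 0) :
    ∃ g₀ : ℝ, 0 < g₀ ∧ ∀ i, i ≠ 0 → a i + g₀ ≤ a 0 := by
  have h1 : ∀ s : Finset (Fin (k + 1)),
      ∃ g₀ : ℝ, 0 < g₀ ∧ ∀ i ∈ s, i ≠ 0 → a i + g₀ ≤ a 0 := by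
    intro s
    induction s using Finset.induction_on with
    | empty => exact ⟨1, one_pos, fun i hi => absurd hi (Finset.notMem_empty i)⟩
    | insert j s hj ih =>
      obtain ⟨g, hg, h⟩ := ih
      by_cases hj0 : j ≠ 0
      · have h3 := ha j hj0
        refine ⟨min g (a 0 - a j), lt_min hg (by linarith), ?_⟩
        intro i hi h0
        rcases Finset.mem_insert.1 hi with rfl | hi
        · have := min_le_right g (a 0 - a i)
          linarith
        · have h4 := min_le_left g (a 0 - a j)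
          have h5 := h i hi h0
          linarith
      · refine ⟨g, hg, ?_⟩
        intro i hi h0
        rcases Finset.mem_insert.1 hi with rfl | hi
        · exact absurd h0 hj0
        · exact h i hi h0
  obtain ⟨g, hg, h⟩ := h1 Finset.univ
  exact ⟨g, hg, fun i h0 => h i (Finset.mem_univ i) h0⟩

theorem tpv (hAtd : AtdStmt) (hAtf : AtfStmt) (hPhe : KT3.PheStmt) (hUni : KT3.UniStmt) :
    TpvStmt := by
  intro n k C Γ hHK a ha
  obtain ⟨κ, hκ, hU⟩ := hUni n C Γ (k + 1) hHK (1 / 400) (by norm_num)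
  have hCC : CC C Γ := hHK.toCC
  have hP : PCone C := hCC.toPCone
  obtain ⟨g₀, hg₀, hgap⟩ := gap0_exists a ha
  refine ⟨1 / 100, 800 * (κ + 1) * ((k : ℝ) + 1) / g₀, by norm_num, ?_⟩
  intro ε σ w z g s lam hε hσ hFG
  have hk1 : (0 : ℝ) < (k : ℝ) + 1 := by positivity
  have hw : IsPES C Γ w := hFG.pes
  have hwc : ∀ i, w i ∈ closure C := fun i => hw.1.cl i
  have hlam : 0 < lam := lt_of_lt_of_le (by norm_num) hFG.l1
  obtain ⟨φ, hφ⟩ := hPhe n C Γ (k + 1) hHK w hw 0
  set f' : V n := fS w ({0}ᶜ : Finset (Fin (k + 1))) with hf'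
  have hf'c : f' ∈ closure C := fS_cl hP hwc _
  set f : V n := ∑ j, w j with hf
  have hfC : f ∈ C := hw.1.sum_mem
  have hfc : f ∈ closure C := subset_closure hfC
  have hsum : f = w 0 + f' := by
    have h1 := fS_add_compl w ({0} : Finset (Fin (k + 1)))
    rw [fS_single] at h1
    exact h1.symm
  have hfle : ∀ i, i ≠ 0 → f' - w i ∈ closure C := by
    intro i hi
    have him : i ∈ ({0}ᶜ : Finset (Fin (k + 1))) := by
      rw [Finset.mem_compl, Finset.mem_singleton]; exact hi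
    have h1 : f' = w i + ∑ j ∈ ({0}ᶜ : Finset (Fin (k + 1))).erase i, w j := by
      rw [hf']
      unfold fS
      exact (Finset.add_sum_erase _ _ him).symm
    have h2 : f' - w i = ∑ j ∈ ({0}ᶜ : Finset (Fin (k + 1))).erase i, w j := by
      rw [h1]; abel
    rw [h2]
    exact hP.cl_sum fun j _ => hwc j
  -- `z i ≤ 2 f'`
  have hzle : ∀ i, i ≠ 0 → (2 : ℝ) • f' - z i ∈ closure C := by
    intro i hi
    obtain ⟨-, h1, -⟩ := hFG.nr i hi
    have h3 : (1 - ε) • f' ∈ closure C := hP.cl_smul hf'c (by linarith)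
    have h4 := hP.cl_add (hP.cl_add h1 h3) (hfle i hi)
    have e : ε • f' - (z i - w i) + (1 - ε) • f' + (f' - w i) = (2 : ℝ) • f' - z i := by
      module
    rw [e] at h4; exact h4
  -- the linear map
  set c : ℝ := Real.exp (a 0 * σ) * lam with hc
  have hc0 : 0 < c := mul_pos (Real.exp_pos _) hlam
  let H : V n →ₗ[ℝ] V n := c⁻¹ • sA s g
  have hHap : ∀ x : V n, H x = c⁻¹ • (s • act g x) := fun x => rfl
  have hHcl : ∀ x ∈ closure C, H x ∈ closure C := by
    intro x hx
    rw [hHap]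
    exact hP.cl_smul (hP.cl_smul (hCC.act_cl hFG.gm hx) hFG.s0.le) (inv_pos.2 hc0).le
  have hHw0 : H (w 0) = w 0 := by
    rw [hHap, hFG.e0, smul_smul, inv_mul_cancel₀ hc0.ne', one_smul]
  have hHw : ∀ i, i ≠ 0 → H (w i) = (c⁻¹ * Real.exp (a i * σ)) • z i := by
    intro i hi
    rw [hHap, hFG.ei i hi, smul_smul]
  -- the small number E
  have hX : 800 * (κ + 1) * ((k : ℝ) + 1) ≤ g₀ * σ := by
    have h1 := (div_le_iff₀ hg₀).1 hσ
    linarith
  have hXpos : 0 < 800 * (κ + 1) * ((k : ℝ) + 1) := by positivity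
  have hσ0 : 0 < σ := by
    have h1 : 0 < g₀ * σ := lt_of_lt_of_le hXpos hX
    exact (mul_pos_iff_of_pos_left hg₀).1 h1
  set E : ℝ := Real.exp (-(g₀ * σ)) with hE
  have hE0 : 0 < E := Real.exp_pos _
  have hE1 : E * (800 * (κ + 1) * ((k : ℝ) + 1)) ≤ 1 := by
    have h1 : g₀ * σ ≤ Real.exp (g₀ * σ) := by
      have := Real.add_one_le_exp (g₀ * σ)
      linarith
    have h2 : E * Real.exp (g₀ * σ) = 1 := by
      rw [hE, ← Real.exp_add, neg_add_cancel, Real.exp_zero]
    calc E * (800 * (κ + 1) * ((k : ℝ) + 1)) ≤ E * Real.exp (g₀ * σ) :=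
          mul_le_mul_of_nonneg_left (hX.trans h1) hE0.le
      _ = 1 := h2
  have hcoef : ∀ i, i ≠ 0 → 0 ≤ c⁻¹ * Real.exp (a i * σ) ∧
      c⁻¹ * Real.exp (a i * σ) ≤ 2 * E := by
    intro i hi
    refine ⟨mul_nonneg (inv_pos.2 hc0).le (Real.exp_pos _).le, ?_⟩
    have h1 : c⁻¹ * Real.exp (a i * σ) = lam⁻¹ * Real.exp (-((a 0 - a i) * σ)) := by
      have e : a i * σ = a 0 * σ + -((a 0 - a i) * σ) := by ring
      rw [hc, e, Real.exp_add]
      have h2 := Real.exp_pos (a 0 * σ)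
      field_simp
    rw [h1]
    have h2 : lam⁻¹ ≤ 2 := by
      rw [inv_le_comm₀ hlam (by norm_num)]
      have := hFG.l1
      norm_num at this ⊢
      linarith
    have h3 : Real.exp (-((a 0 - a i) * σ)) ≤ E := by
      rw [hE]
      refine Real.exp_le_exp.2 ?_
      have h4 := hgap i hi
      have h5 : g₀ * σ ≤ (a 0 - a i) * σ := mul_le_mul_of_nonneg_right (by linarith) hσ0.le
      linarith
    exact mul_le_mul h2 h3 (Real.exp_pos _).le (by norm_num)
  -- the sum of the other vertices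
  set q : ℝ := ((k : ℝ) + 1) * (4 * E) with hq
  have hq0 : 0 ≤ q := by positivity
  have hrest : q • f' - H f' ∈ closure C := by
    set S : Finset (Fin (k + 1)) := ({0}ᶜ : Finset (Fin (k + 1))) with hS
    have hone : ∀ j ∈ S, (4 * E) • f' - H (w j) ∈ closure C := by
      intro j hj
      have hj0 : j ≠ 0 := by
        rw [hS, Finset.mem_compl, Finset.mem_singleton] at hj; exact hj
      rw [hHw j hj0]
      obtain ⟨h1, h2⟩ := hcoef j hj0
      have h3 := hP.cl_smul (hzle j hj0) h1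
      have h4 : (4 * E - 2 * (c⁻¹ * Real.exp (a j * σ))) • f' ∈ closure C :=
        hP.cl_smul hf'c (by linarith)
      have h5 := hP.cl_add h3 h4
      have e : (c⁻¹ * Real.exp (a j * σ)) • ((2 : ℝ) • f' - z j) +
          (4 * E - 2 * (c⁻¹ * Real.exp (a j * σ))) • f' =
          (4 * E) • f' - (c⁻¹ * Real.exp (a j * σ)) • z j := by
        module
      rw [e] at h5; exact h5
    have h6 : ∑ j ∈ S, ((4 * E) • f' - H (w j)) ∈ closure C := hP.cl_sum hone
    have h7 : ∑ j ∈ S, w j = f' := rfl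
    rw [Finset.sum_sub_distrib, ← map_sum, h7, Finset.sum_const] at h6
    have hcard : ((S.card : ℕ) : ℝ) ≤ (k : ℝ) + 1 := by
      have h7 : S.card ≤ k + 1 := by
        have := Finset.card_le_univ S
        rwa [Fintype.card_fin] at this
      have h8 : ((S.card : ℕ) : ℝ) ≤ ((k + 1 : ℕ) : ℝ) := by exact_mod_cast h7
      rwa [Nat.cast_add, Nat.cast_one] at h8
    have h9 : ((k : ℝ) + 1 - (S.card : ℝ)) • ((4 * E) • f') ∈ closure C :=
      hP.cl_smul (hP.cl_smul hf'c (by positivity)) (by linarith)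
    have h10 := hP.cl_add h6 h9
    have e : S.card • (4 * E) • f' - H f' + ((k : ℝ) + 1 - (S.card : ℝ)) • ((4 * E) • f') =
        q • f' - H f' := by
      rw [← Nat.cast_smul_eq_nsmul ℝ S.card ((4 * E) • f'), hq]
      module
    rw [e] at h10
    exact h10
  have hqs : (κ + 1) * q ≤ 1 / 200 := by
    have h1 : (κ + 1) * q = E * (800 * (κ + 1) * ((k : ℝ) + 1)) * (1 / 200) := by
      rw [hq]; ring
    rw [h1]
    linarith
  -- the contraction
  have hcontr : ∀ e ∈ (⊤ : Submodule ℝ (V n)), ∀ r : ℝ, 0 ≤ r → φ e = 0 →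
      r • f - e ∈ closure C → r • f + e ∈ closure C →
      (r / 100) • f - H e ∈ closure C ∧ (r / 100) • f + H e ∈ closure C := by
    intro e _ r hr he h1 h2
    obtain ⟨h5, h6⟩ := hU w hw 0 φ hφ e r he hr h1 h2
    rw [← hf', ← hf, hsum] at h5 h6
    have h9 := hHcl _ h5
    have h10 := hHcl _ h6
    rw [map_sub, map_smul, map_add, map_smul, map_smul, map_add, hHw0] at h9
    rw [map_add, map_smul, map_add, map_smul, map_smul, map_add, hHw0] at h10
    rw [hsum]
    have h11 : (r * (κ + 1 / 400)) • (q • f' - H f') ∈ closure C :=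
      hP.cl_smul hrest (by positivity)
    have h12 : (r * (3 / 400)) • w 0 ∈ closure C := hP.cl_smul (hwc 0) (by positivity)
    have h13 : (r * (1 / 100 - (κ + 1 / 400) * q)) • f' ∈ closure C := by
      refine hP.cl_smul hf'c (mul_nonneg hr ?_)
      have h14 : (κ + 1 / 400) * q ≤ (κ + 1) * q :=
        mul_le_mul_of_nonneg_right (by linarith) hq0
      linarith
    have h14 := hP.cl_add (hP.cl_add h11 h12) h13
    refine ⟨?_, ?_⟩
    · have h15 := hP.cl_add h9 h14
      have e1 : r • (κ • H f' + (1 / 400 : ℝ) • (w 0 + H f')) - H e +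
          ((r * (κ + 1 / 400)) • (q • f' - H f') + (r * (3 / 400)) • w 0 +
          (r * (1 / 100 - (κ + 1 / 400) * q)) • f') =
          (r / 100) • (w 0 + f') - H e := by module
      rw [e1] at h15; exact h15
    · have h15 := hP.cl_add h10 h14
      have e1 : r • (κ • H f' + (1 / 400 : ℝ) • (w 0 + H f')) + H e +
          ((r * (κ + 1 / 400)) • (q • f' - H f') + (r * (3 / 400)) • w 0 +
          (r * (1 / 100 - (κ + 1 / 400) * q)) • f') =
          (r / 100) • (w 0 + f') + H e := by module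
      rw [e1] at h15; exact h15
  have hφf : φ f = 1 := by
    rw [hsum, map_add, hφ.one, hf']
    unfold fS
    rw [map_sum, Finset.sum_eq_zero, add_zero]
    intro j hj
    rw [Finset.mem_compl, Finset.mem_singleton] at hj
    exact hφ.zero j hj
  have hfw0 : f - w 0 ∈ closure C := by
    have e : f - w 0 = f' := by rw [hsum]; abel
    rw [e]; exact hf'c
  have hsmall : (1 / 100 : ℝ) • f ∈ closure C := hP.cl_smul hfc (by norm_num)
  have hunits : ∀ u ∈ (⊤ : Submodule ℝ (V n)), ∃ r : ℝ, 0 ≤ r ∧ r • f - u ∈ closure C ∧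
      r • f + u ∈ closure C := by
    intro u _
    obtain ⟨M, hM, h1, h2⟩ := absorb_two hP hfC u
    exact ⟨M, hM.le, subset_closure h1, subset_closure h2⟩
  obtain ⟨x, l, ψ, hA, hφx, hl1, hl2, hψ, -, -⟩ := hAtd n C hP ⊤ f (w 0) φ H (1 / 100)
    (by norm_num) (by norm_num) Submodule.mem_top hfc Submodule.mem_top (hwc 0) hfw0 hφ.pos
    hφ.one hφf (fun x _ => Submodule.mem_top) hHcl
    (by rw [hHw0, sub_self, sub_zero]; exact hsmall)
    (by rw [hHw0, sub_self, add_zero]; exact hsmall) hunits hcontr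
  obtain ⟨hx0, hF2, -, -, hF5, -⟩ := hAtf n C hP ⊤ H l x ψ hA
  have hw0 : w 0 ≠ 0 := by
    intro h
    have h1 := hφ.one
    rw [h, map_zero] at h1
    exact one_ne_zero h1.symm
  have hl : l = 1 := by
    obtain ⟨h1, h2⟩ := hF5 (w 0) Submodule.mem_top hw0 1 one_pos (by rw [hHw0, one_smul])
    rcases h1.eq_or_lt with h3 | h3
    · exact h3.symm
    · have h4 := h2 h3
      rw [h4] at hψ
      norm_num at hψ
  subst hl
  have hw0x : w 0 = ψ (w 0) • x := hF2 (w 0) Submodule.mem_top (by rw [hHw0, one_smul])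
  have hψ1 : ψ (w 0) = 1 := by
    have h1 : φ (w 0) = φ (ψ (w 0) • x) := congrArg φ hw0x
    rw [map_smul, hφx, smul_eq_mul, mul_one, hφ.one] at h1
    exact h1.symm
  have hxw : w 0 = x := by rw [hψ1, one_smul] at hw0x; exact hw0x
  rw [← hxw] at hA
  obtain ⟨-, -, -, -, -, hF6⟩ := hAtf n C hP ⊤ H 1 (w 0) ψ hA
  have h1 := hF6 c hc0
  have h2 : c • H = sA s g := by
    change c • (c⁻¹ • sA s g) = sA s g
    rw [smul_smul, mul_inv_cancel₀ hc0.ne', one_smul]
  rw [h2, mul_one] at h1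
  exact ⟨ψ, h1⟩

end Pool.Agent.VMX.H75
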